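import Pool.Agent.Helper51_PR.Idx

set_option autoImplicit false

/-! Modules DIL and AVG. -/

open MeasureTheory
open scoped ENNReal NNReal

namespace Pool.Agent.Helper51_PR

open Pool.Agent.Helper91PC Pool.Agent.Helper91PR

theorem mono_comp {F : ℝ → ℝ} (hF : Monotone F) {y : ℝ} (hy : 0 ≤ y) :
    Monotone fun v : ℝ => F (v * y) := by
  intro v w h
  exact hF (by gcongr)

theorem dil_aux {F : ℝ → ℝ} (hF : Monotone F) (h0 : ∀ u, 0 ≤ u → 0 ≤ F u)
    (h2 : ∀ u, 0 ≤ u → F u ≤ 2 * u) {x y : ℝ} (hx : 0 ≤ x) (hxy : x ≤ y) :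
    ∫ v in (1 : ℝ)..2, (F (v * y) - F (v * x)) ≤ 16 * (y - x) := by
  have hy : 0 ≤ y := hx.trans hxy
  have iy : IntervalIntegrable (fun v : ℝ => F (v * y)) volume 1 2 :=
    (mono_comp hF hy).intervalIntegrable
  have ix : IntervalIntegrable (fun v : ℝ => F (v * x)) volume 1 2 :=
    (mono_comp hF hx).intervalIntegrable
  rcases lt_or_ge (2 * x) y with h | h
  · have h3 : ∫ v in (1 : ℝ)..2, (F (v * y) - F (v * x)) ≤ ∫ v in (1 : ℝ)..2, 4 * y := by
      refine intervalIntegral.integral_mono_on (by norm_num) (iy.sub ix) (by simp) ?_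
      intro v hv
      have hv0 : 0 ≤ v := by linarith [hv.1]
      have e1 := h0 (v * x) (by positivity)
      have e2 := h2 (v * y) (by positivity)
      have e3 : v * y ≤ 2 * y := by gcongr; exact hv.2
      linarith
    rw [intervalIntegral.integral_const] at h3
    norm_num at h3
    linarith
  · rcases hx.eq_or_lt with rfl | hx0
    · have hy' : y = 0 := by linarith
      subst hy'
      simp
    · have hy0 : 0 < y := by linarith
      rw [intervalIntegral.integral_sub iy ix,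
        intervalIntegral.integral_comp_mul_right F hy0.ne',
        intervalIntegral.integral_comp_mul_right F hx0.ne', one_mul, one_mul, smul_eq_mul,
        smul_eq_mul]
      have ii : ∀ a b, IntervalIntegrable F volume a b := fun a b => hF.intervalIntegrable
      have e1 : (∫ u in y..2 * y, F u) = (∫ u in x..2 * x, F u) + (∫ u in 2 * x..2 * y, F u)
          - (∫ u in x..y, F u) := by
        have := intervalIntegral.integral_add_adjacent_intervals (ii x (2 * x)) (ii (2 * x) (2 * y))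
        have := intervalIntegral.integral_add_adjacent_intervals (ii x y) (ii y (2 * y))
        linarith
      have e2 : 0 ≤ ∫ u in x..y, F u :=
        intervalIntegral.integral_nonneg hxy fun u hu => h0 u (hx.trans hu.1)
      have e3 : 0 ≤ ∫ u in y..2 * y, F u :=
        intervalIntegral.integral_nonneg (by linarith) fun u hu => h0 u (hy.trans hu.1)
      have e4 : (∫ u in 2 * x..2 * y, F u) ≤ ∫ u in 2 * x..2 * y, 4 * y := by
        refine intervalIntegral.integral_mono_on (by linarith) (ii _ _) (by simp) ?_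
        intro u hu
        have := h2 u (by linarith [hu.1])
        linarith [hu.2]
      rw [intervalIntegral.integral_const, smul_eq_mul] at e4
      have e5 : y⁻¹ * (∫ u in y..2 * y, F u) ≤ x⁻¹ * (∫ u in y..2 * y, F u) := by
        gcongr
      have e6 : x⁻¹ * (∫ u in 2 * x..2 * y, F u) ≤ 16 * (y - x) := by
        rw [inv_mul_le_iff₀ hx0]
        nlinarith
      calc y⁻¹ * (∫ u in y..2 * y, F u) - x⁻¹ * (∫ u in x..2 * x, F u)
          ≤ x⁻¹ * (∫ u in y..2 * y, F u) - x⁻¹ * (∫ u in x..2 * x, F u) := by linarith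
        _ = x⁻¹ * (∫ u in 2 * x..2 * y, F u) - x⁻¹ * (∫ u in x..y, F u) := by rw [e1]; ring
        _ ≤ x⁻¹ * (∫ u in 2 * x..2 * y, F u) := by
            have : 0 ≤ x⁻¹ * (∫ u in x..y, F u) := by positivity
            linarith
        _ ≤ 16 * (y - x) := e6

theorem dil_le {F : ℝ → ℝ} (hF : Monotone F) (h0 : ∀ u, 0 ≤ u → 0 ≤ F u)
    (h2 : ∀ u, 0 ≤ u → F u ≤ 2 * u) {x y : ℝ} (hx : 0 ≤ x) (hxy : x ≤ y) :
    ∫⁻ v in Set.Icc (1 : ℝ) 2, ENNReal.ofReal |F (v * x) - F (v * y)|
      ≤ ENNReal.ofReal (16 * |x - y|) := by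
  have hy : 0 ≤ y := hx.trans hxy
  have iy : IntervalIntegrable (fun v : ℝ => F (v * y)) volume 1 2 :=
    (mono_comp hF hy).intervalIntegrable
  have ix : IntervalIntegrable (fun v : ℝ => F (v * x)) volume 1 2 :=
    (mono_comp hF hx).intervalIntegrable
  have h3 : ∀ v ∈ Set.Icc (1 : ℝ) 2, |F (v * x) - F (v * y)| = F (v * y) - F (v * x) := by
    intro v hv
    have hv0 : 0 ≤ v := by linarith [hv.1]
    rw [abs_sub_comm, abs_of_nonneg]
    have : F (v * x) ≤ F (v * y) := hF (by gcongr)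
    linarith
  have h4 : IntegrableOn (fun v : ℝ => F (v * y) - F (v * x)) (Set.Icc 1 2) := by
    rw [integrableOn_Icc_iff_integrableOn_Ioc]
    exact (intervalIntegrable_iff_integrableOn_Ioc_of_le (by norm_num)).1 (iy.sub ix)
  rw [setLIntegral_congr_fun measurableSet_Icc (g := fun v => ENNReal.ofReal
    (F (v * y) - F (v * x))) (fun v hv => by rw [h3 v hv]),
    ← ofReal_integral_eq_lintegral_ofReal h4]
  · apply ENNReal.ofReal_le_ofReal
    rw [abs_sub_comm, abs_of_nonneg (sub_nonneg.2 hxy), integral_Icc_eq_integral_Ioc,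
      ← intervalIntegral.integral_of_le (by norm_num)]
    exact dil_aux hF h0 h2 hx hxy
  · rw [Filter.EventuallyLE, ae_restrict_iff' measurableSet_Icc]
    filter_upwards with v hv
    rw [← h3 v hv]
    exact abs_nonneg _

theorem dil_le' {F : ℝ → ℝ} (hF : Monotone F) (h0 : ∀ u, 0 ≤ u → 0 ≤ F u)
    (h2 : ∀ u, 0 ≤ u → F u ≤ 2 * u) {x y : ℝ} (hx : 0 ≤ x) (hy : 0 ≤ y) :
    ∫⁻ v in Set.Icc (1 : ℝ) 2, ENNReal.ofReal |F (v * x) - F (v * y)|
      ≤ ENNReal.ofReal (16 * |x - y|) := by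
  rcases le_total x y with h | h
  · exact dil_le hF h0 h2 hx h
  · have := dil_le hF h0 h2 hy h
    rw [abs_sub_comm y x] at this
    refine le_trans (le_of_eq ?_) this
    refine lintegral_congr fun v => ?_
    rw [abs_sub_comm]

theorem measurable_fl (x : ℝ) : Measurable fun v : ℝ => ((⌊v * x + 1 / 2⌋ : ℤ) : ℝ) :=
  measurable_from_top.comp (Int.measurable_floor.comp (by fun_prop))

theorem dil_pos {x y : ℝ} (hx : 0 ≤ x) (hy : 0 ≤ y) : ∫⁻ v in Set.Icc (1 : ℝ) 2,
    ENNReal.ofReal |((⌊v * x + 1 / 2⌋ : ℤ) : ℝ) - (⌊v * y + 1 / 2⌋ : ℤ)| ≤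
      ENNReal.ofReal (16 * |x - y|) := by
  refine dil_le' (F := fun u => ((⌊u + 1 / 2⌋ : ℤ) : ℝ)) ?_ ?_ ?_ hx hy
  · intro u w h
    have : ⌊u + 1 / 2⌋ ≤ ⌊w + 1 / 2⌋ := Int.floor_le_floor (by linarith)
    exact Int.cast_le.2 this
  · intro u hu
    have : 0 ≤ ⌊u + 1 / 2⌋ := Int.floor_nonneg.2 (by linarith)
    exact_mod_cast this
  · intro u hu
    rcases lt_or_ge u (1 / 2) with h | h
    · have : ⌊u + 1 / 2⌋ ≤ 0 := by
        rw [← Int.lt_add_one_iff, Int.floor_lt]
        push_cast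
        linarith
      have h3 : ((⌊u + 1 / 2⌋ : ℤ) : ℝ) ≤ 0 := by exact_mod_cast this
      linarith
    · have := Int.floor_le (u + 1 / 2)
      linarith

theorem dil_neg {x y : ℝ} (hx : x ≤ 0) (hy : y ≤ 0) : ∫⁻ v in Set.Icc (1 : ℝ) 2,
    ENNReal.ofReal |((⌊v * x + 1 / 2⌋ : ℤ) : ℝ) - (⌊v * y + 1 / 2⌋ : ℤ)| ≤
      ENNReal.ofReal (16 * |x - y|) := by
  have h1 := dil_le' (F := fun u => ((⌈u - 1 / 2⌉ : ℤ) : ℝ)) (x := -x) (y := -y) ?_ ?_ ?_
    (by linarith) (by linarith)
  · have e1 : |-x - -y| = |x - y| := by rw [← abs_neg]; congr 1; ring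
    rw [e1] at h1
    refine le_trans (le_of_eq ?_) h1
    refine lintegral_congr fun v => ?_
    have e2 : ∀ z : ℝ, ⌈v * -z - 1 / 2⌉ = -⌊v * z + 1 / 2⌋ := by
      intro z
      rw [← Int.ceil_neg]
      congr 1
      ring
    rw [e2, e2]
    congr 1
    rw [← abs_neg]
    congr 1
    push_cast
    ring
  · intro u w h
    have : ⌈u - 1 / 2⌉ ≤ ⌈w - 1 / 2⌉ := Int.ceil_le_ceil (by linarith)
    exact Int.cast_le.2 this
  · intro u hu
    have : 0 ≤ ⌈u - 1 / 2⌉ := by
      rw [← Int.sub_one_lt_iff, Int.lt_ceil]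
      push_cast
      linarith
    exact_mod_cast this
  · intro u hu
    rcases le_or_gt u (1 / 2) with h | h
    · have : ⌈u - 1 / 2⌉ ≤ 0 := by
        rw [Int.ceil_le]
        push_cast
        linarith
      have h3 : ((⌈u - 1 / 2⌉ : ℤ) : ℝ) ≤ 0 := by exact_mod_cast this
      linarith
    · have := Int.ceil_lt_add_one (u - 1 / 2)
      linarith

theorem dil_mixed {x y : ℝ} (hx : x ≤ 0) (hy : 0 ≤ y) : ∫⁻ v in Set.Icc (1 : ℝ) 2,
    ENNReal.ofReal |((⌊v * x + 1 / 2⌋ : ℤ) : ℝ) - (⌊v * y + 1 / 2⌋ : ℤ)| ≤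
      ENNReal.ofReal (16 * |x - y|) := by
  have h1 := dil_neg hx le_rfl
  have h2 := dil_pos le_rfl hy
  calc _ ≤ ∫⁻ v in Set.Icc (1 : ℝ) 2,
        (ENNReal.ofReal |((⌊v * x + 1 / 2⌋ : ℤ) : ℝ) - (⌊v * 0 + 1 / 2⌋ : ℤ)|
        + ENNReal.ofReal |((⌊v * 0 + 1 / 2⌋ : ℤ) : ℝ) - (⌊v * y + 1 / 2⌋ : ℤ)|) := by
        refine lintegral_mono fun v => ?_
        rw [← ENNReal.ofReal_add (abs_nonneg _) (abs_nonneg _)]
        exact ENNReal.ofReal_le_ofReal (abs_sub_le _ _ _)
    _ = _ := lintegral_add_left (by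
        have := measurable_fl
        fun_prop) _
    _ ≤ _ := add_le_add h1 h2
    _ = ENNReal.ofReal (16 * |x - y|) := by
        rw [← ENNReal.ofReal_add (by positivity) (by positivity)]
        congr 1
        rw [sub_zero, zero_sub, abs_neg, abs_of_nonpos hx, abs_of_nonneg hy,
          abs_of_nonpos (by linarith)]
        ring

theorem dilStatement : DilStatement := by
  intro x y
  rcases le_total 0 x with hx | hx
  · rcases le_total 0 y with hy | hy
    · exact dil_pos hx hy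
    · have := dil_mixed hy hx
      rw [abs_sub_comm y x] at this
      refine le_trans (le_of_eq ?_) this
      refine lintegral_congr fun v => ?_
      rw [abs_sub_comm]
  · rcases le_total 0 y with hy | hy
    · exact dil_mixed hx hy
    · exact dil_neg hx hy

theorem measurable_idx (a : ℕ) (k : ℤ) (x : ℝ) : Measurable fun v : ℝ => (idx a v k x : ℝ) :=
  measurable_from_top.comp (((idxStatement a).2.2.2.1 k).comp (by fun_prop :
    Measurable fun v : ℝ => (v, x)))

theorem avg_aux (a : ℕ) (k : ℤ) (x y : ℝ) {D : ℝ} :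
    ∫⁻ v, ENNReal.ofReal (min |(idx a v k x : ℝ) - idx a v k y| D) ∂muV
      ≤ ENNReal.ofReal (min (16 * |x - y| / ((2 * a + 1 : ℕ) : ℝ) ^ k) D) := by
  have hMk : (0 : ℝ) < ((2 * a + 1 : ℕ) : ℝ) ^ k := by positivity
  rw [ENNReal.ofReal_min, le_min_iff]
  constructor
  · have h1 := dilStatement (x / ((2 * a + 1 : ℕ) : ℝ) ^ k) (y / ((2 * a + 1 : ℕ) : ℝ) ^ k)
    rw [← sub_div, abs_div, abs_of_pos hMk, ← mul_div_assoc] at h1
    refine le_trans (lintegral_mono fun v => ?_) h1
    refine ENNReal.ofReal_le_ofReal ((min_le_left _ _).trans (le_of_eq ?_))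
    unfold idx
    rw [mul_div_assoc, mul_div_assoc]
  · calc ∫⁻ v, ENNReal.ofReal (min |(idx a v k x : ℝ) - idx a v k y| D) ∂muV
        ≤ ∫⁻ v, ENNReal.ofReal D ∂muV :=
          lintegral_mono fun v => ENNReal.ofReal_le_ofReal (min_le_right _ _)
      _ = ENNReal.ofReal D := by
          rw [lintegral_const, muV, Measure.restrict_apply_univ, Real.volume_Icc]
          norm_num

theorem avgStatement : AvgStatement := by
  intro a q φ D hP k x y
  obtain ⟨hpar, -, hchild, -⟩ := idxStatement a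
  have hD := hP.D_pos
  have hMk : (0 : ℝ) < ((2 * a + 1 : ℕ) : ℝ) ^ k := by positivity
  have hM : (0 : ℝ) < ((2 * a + 1 : ℕ) : ℝ) := by positivity
  have h1 : ∀ v, tw a φ D v k x y ≤ min |(idx a v k x : ℝ) - idx a v k y| D
      + 2 * D * min |(idx a v (k + 1) x : ℝ) - idx a v (k + 1) y| 1 := by
    intro v
    unfold tw
    split_ifs with h
    · rw [h, sub_self, abs_zero, min_eq_left zero_le_one, mul_zero, add_zero]
      refine le_min ?_ (hP.φ_le _ _)
      refine (hP.φ_le_dist _ _).trans (le_of_eq ?_)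
      have e1 := hchild (idx a v k x)
      have e2 := hchild (idx a v k y)
      rw [hpar, h] at e1
      rw [hpar] at e2
      unfold child at e1 e2
      have e3 : (idx a v k x : ℝ) - idx a v k y
          = ((dig a (idx a v k x) : ℕ) : ℝ) - ((dig a (idx a v k y) : ℕ) : ℝ) := by
        have : idx a v k x - idx a v k y
          = ((dig a (idx a v k x) : ℕ) : ℤ) - ((dig a (idx a v k y) : ℕ) : ℤ) := by omega
        exact_mod_cast this
      rw [e3]
    · have h2 : (1 : ℝ) ≤ |(idx a v (k + 1) x : ℝ) - idx a v (k + 1) y| := by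
        have : (1 : ℤ) ≤ |idx a v (k + 1) x - idx a v (k + 1) y| :=
          Int.one_le_abs (sub_ne_zero.2 h)
        exact_mod_cast this
      rw [min_eq_right h2, mul_one]
      have : 0 ≤ min |(idx a v k x : ℝ) - idx a v k y| D := le_min (abs_nonneg _) hD.le
      linarith
  have hm := measurable_idx a
  calc ∫⁻ v, ENNReal.ofReal (tw a φ D v k x y) ∂muV
      ≤ ∫⁻ v, (ENNReal.ofReal (min |(idx a v k x : ℝ) - idx a v k y| D)
        + ENNReal.ofReal (2 * D)
          * ENNReal.ofReal (min |(idx a v (k + 1) x : ℝ) - idx a v (k + 1) y| 1)) ∂muV := by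
        refine lintegral_mono fun v => ?_
        rw [← ENNReal.ofReal_mul (by positivity), ← ENNReal.ofReal_add
          (le_min (abs_nonneg _) hD.le)
          (mul_nonneg (by positivity) (le_min (abs_nonneg _) zero_le_one))]
        exact ENNReal.ofReal_le_ofReal (h1 v)
    _ = ∫⁻ v, ENNReal.ofReal (min |(idx a v k x : ℝ) - idx a v k y| D) ∂muV
        + ENNReal.ofReal (2 * D)
          * ∫⁻ v, ENNReal.ofReal (min |(idx a v (k + 1) x : ℝ) - idx a v (k + 1) y| 1) ∂muV := by
        rw [lintegral_add_left (by fun_prop), lintegral_const_mul _ (by fun_prop)]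
    _ ≤ ENNReal.ofReal (min (16 * |x - y| / ((2 * a + 1 : ℕ) : ℝ) ^ k) D)
        + ENNReal.ofReal (2 * D)
          * ENNReal.ofReal (min (16 * |x - y| / ((2 * a + 1 : ℕ) : ℝ) ^ (k + 1)) 1) := by
        gcongr
        · exact avg_aux a k x y
        · exact avg_aux a (k + 1) x y
    _ ≤ ENNReal.ofReal (3 * min (16 * |x - y| / ((2 * a + 1 : ℕ) : ℝ) ^ k) D) := by
        rw [← ENNReal.ofReal_mul (by positivity), ← ENNReal.ofReal_add
          (le_min (by positivity) hD.le)
          (mul_nonneg (by positivity) (le_min (by positivity) zero_le_one))]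
        apply ENNReal.ofReal_le_ofReal
        have e1 : D * min (16 * |x - y| / ((2 * a + 1 : ℕ) : ℝ) ^ (k + 1)) 1
            ≤ min (16 * |x - y| / ((2 * a + 1 : ℕ) : ℝ) ^ k) D := by
          refine le_min ?_ ?_
          · calc D * min (16 * |x - y| / ((2 * a + 1 : ℕ) : ℝ) ^ (k + 1)) 1
                ≤ ((2 * a + 1 : ℕ) : ℝ) * (16 * |x - y| / ((2 * a + 1 : ℕ) : ℝ) ^ (k + 1)) :=
                  mul_le_mul hP.D_le (min_le_left _ _) (le_min (by positivity) zero_le_one) hM.le
              _ = 16 * |x - y| / ((2 * a + 1 : ℕ) : ℝ) ^ k := by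
                  rw [zpow_add_one₀ hM.ne']
                  field_simp
          · calc D * min (16 * |x - y| / ((2 * a + 1 : ℕ) : ℝ) ^ (k + 1)) 1 ≤ D * 1 := by
                  gcongr; exact min_le_right _ _
              _ = D := mul_one D
        linarith

end Pool.Agent.Helper51_PR
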