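import Pool.Agent.Helper91_PR.Defs

set_option autoImplicit false

/-! Modules IDX and SCALE. -/

open MeasureTheory
open scoped ENNReal NNReal

namespace Pool.Agent.Helper51_PR

open Pool.Agent.Helper91PC Pool.Agent.Helper91PR

theorem par_idx (a : ℕ) (v : ℝ) (k : ℤ) (x : ℝ) : par a (idx a v k x) = idx a v (k + 1) x := by
  unfold par idx
  have hM : (0 : ℝ) < ((2 * a + 1 : ℕ) : ℝ) := by positivity
  have hMk : (0 : ℝ) < ((2 * a + 1 : ℕ) : ℝ) ^ k := by positivity
  rw [← Int.floor_add_natCast, ← Int.floor_div_natCast]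
  congr 1
  rw [zpow_add_one₀ hM.ne']
  have h2 : ((2 * a + 1 : ℕ) : ℝ) = 2 * (a : ℝ) + 1 := by push_cast; ring
  field_simp
  rw [h2]
  ring

theorem idxStatement : IdxStatement := by
  intro a
  refine ⟨par_idx a, ?_, ?_, ?_, ?_, ?_⟩
  · intro i c
    have hM : (0 : ℤ) < ((2 * a + 1 : ℕ) : ℤ) := by positivity
    have hc := c.2
    have h1 : child a i c + a = (c : ℕ) + ((2 * a + 1 : ℕ) : ℤ) * i := by
      unfold child; ring
    constructor
    · unfold par
      rw [h1, Int.add_mul_ediv_left _ _ hM.ne', Int.ediv_eq_zero_of_lt (by omega) (by omega),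
        zero_add]
    · unfold dig
      ext
      simp only
      rw [h1, Int.add_mul_emod_self_left, Int.emod_eq_of_lt (by omega) (by omega)]
      simp
  · intro j
    have hM : (0 : ℤ) < ((2 * a + 1 : ℕ) : ℤ) := by positivity
    unfold child par dig
    simp only
    rw [Int.toNat_of_nonneg (Int.emod_nonneg _ hM.ne')]
    have := Int.mul_ediv_add_emod (j + a) ((2 * a + 1 : ℕ) : ℤ)
    linarith
  · intro k
    unfold idx
    exact Int.measurable_floor.comp (by fun_prop)
  · intro v k x hv
    have hMk : (0 : ℝ) < ((2 * a + 1 : ℕ) : ℝ) ^ k := by positivity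
    set N := ((2 * a + 1 : ℕ) : ℝ) ^ k with hN
    have h1 : (idx a v k x : ℝ) ≤ v * x / N + 1 / 2 := by
      unfold idx; exact Int.floor_le _
    have h2 : v * x / N + 1 / 2 < idx a v k x + 1 := by
      unfold idx; exact Int.lt_floor_add_one _
    have h3 : |v * x / N - idx a v k x| ≤ 1 / 2 := by
      rw [abs_le]; constructor <;> linarith
    have h4 : x - (idx a v k x : ℝ) * N / v = (v * x / N - idx a v k x) * (N / v) := by
      field_simp
    rw [h4, abs_mul, abs_of_pos (show 0 < N / v by positivity)]
    calc |v * x / N - idx a v k x| * (N / v) ≤ 1 / 2 * (N / v) := by gcongr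
      _ = N / (2 * v) := by field_simp
  · intro v x k h
    have hMk : (0 : ℝ) < ((2 * a + 1 : ℕ) : ℝ) ^ k := by positivity
    unfold idx
    rw [Int.floor_eq_zero_iff, Set.mem_Ico]
    rw [abs_lt] at h
    have h1 : -(1 / 2) < v * x / ((2 * a + 1 : ℕ) : ℝ) ^ k := by
      rw [lt_div_iff₀ hMk]; linarith [h.1]
    have h2 : v * x / ((2 * a + 1 : ℕ) : ℝ) ^ k < 1 / 2 := by
      rw [div_lt_iff₀ hMk]; linarith [h.2]
    constructor <;> linarith

/-! ### SCALE -/

/-- geometric weights around `0` -/
noncomputable def gw (k : ℤ) : ℝ := if 0 ≤ k then (1 / 4) ^ k.toNat else (1 / 4) ^ (-k - 1).toNat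

theorem hasSum_gw : HasSum gw (4 / 3 + 4 / 3) := by
  have hg : HasSum (fun n : ℕ => (1 / 4 : ℝ) ^ n) (4 / 3) := by
    have := hasSum_geometric_of_lt_one (r := (1 / 4 : ℝ)) (by norm_num) (by norm_num)
    convert this using 1
    norm_num
  refine HasSum.of_nat_of_neg_add_one ?_ ?_
  · refine hg.congr_fun ?_
    intro n
    simp [gw]
  · refine hg.congr_fun ?_
    intro n
    unfold gw
    rw [if_neg (by omega)]
    congr 1
    omega

theorem gw_nonneg (k : ℤ) : 0 ≤ gw k := by
  unfold gw
  split_ifs <;> positivity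

theorem sum_gw (j : ℤ) (S : Finset ℤ) : ∑ k ∈ S, gw (k - j) ≤ 8 / 3 := by
  have h1 : HasSum (gw ∘ (Equiv.subRight j)) (4 / 3 + 4 / 3) :=
    (Equiv.hasSum_iff (Equiv.subRight j)).2 hasSum_gw
  have h2 := sum_le_hasSum S (fun k _ => gw_nonneg _) h1
  simp only [Function.comp_apply, Equiv.subRight_apply] at h2
  linarith

theorem scaleStatement : ScaleStatement := by
  intro a q φ D hP d hd S
  have hq := hP.q_pos
  have hq1 := hP.q_lt
  set M : ℝ := ((2 * a + 1 : ℕ) : ℝ) with hM
  have ha1 : (1 : ℝ) ≤ a := by exact_mod_cast hP.a_pos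
  have hM1 : 1 < M := by
    have h2 : M = 2 * (a : ℝ) + 1 := by rw [hM]; push_cast; ring
    linarith
  have hM0 : 0 < M := by linarith
  rcases hd.eq_or_lt with rfl | hd0
  · rw [Real.zero_rpow hq.ne', mul_zero]
    refine Finset.sum_nonpos ?_
    intro k _
    rw [zero_div]
    rw [min_eq_left hP.D_pos.le, mul_zero]
  obtain ⟨j, hj1, hj2⟩ := exists_mem_Ico_zpow hd0 hM1
  have hdq : 0 < d ^ q := Real.rpow_pos_of_pos hd0 _
  have key : ∀ k : ℤ, (M ^ k) ^ q * min (d / M ^ k) D ≤ 5 * d ^ q * gw (k - j) := by
    intro k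
    have hMk : 0 < M ^ k := by positivity
    have hMj : 0 < M ^ j := by positivity
    have hmin : 0 ≤ min (d / M ^ k) D := le_min (by positivity) hP.D_pos.le
    have hmin1 : min (d / M ^ k) D ≤ D := min_le_right _ _
    have hsub : ∀ t : ℝ, 0 < t → t ^ q * (d / t) = d * (t ^ (1 - q))⁻¹ := by
      intro t ht
      rw [Real.rpow_sub ht, Real.rpow_one]
      have : 0 < t ^ q := Real.rpow_pos_of_pos ht _
      field_simp
    rcases le_or_gt j k with hjk | hjk
    · obtain ⟨n, hn⟩ := Int.eq_ofNat_of_zero_le (sub_nonneg.2 hjk)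
      have hkj : k = j + n := by omega
      have hgw : gw (k - j) = (1 / 4) ^ n := by
        rw [hn]; simp [gw]
      rw [hgw]
      rcases Nat.eq_zero_or_pos n with rfl | hn0
      · simp only [pow_zero, mul_one]
        have hkj' : k = j := by simpa using hkj
        subst hkj'
        rcases hP.D_or with hD | hD
        · calc (M ^ k) ^ q * min (d / M ^ k) D ≤ d ^ q * 1 :=
                mul_le_mul (Real.rpow_le_rpow hMk.le hj1 hq.le) (hmin1.trans hD) hmin hdq.le
            _ ≤ 5 * d ^ q := by linarith
        · calc (M ^ k) ^ q * min (d / M ^ k) D ≤ (M ^ k) ^ q * (d / M ^ k) := by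
                gcongr; exact min_le_left _ _
            _ = d * ((M ^ k) ^ (1 - q))⁻¹ := hsub _ hMk
            _ ≤ d * (5 * (d ^ (1 - q))⁻¹) := by
                gcongr
                rw [inv_le_comm₀ (by positivity) (by positivity), mul_inv, inv_inv]
                rw [inv_mul_le_iff₀ (by norm_num)]
                calc d ^ (1 - q) ≤ (M ^ (k + 1)) ^ (1 - q) := by
                      apply Real.rpow_le_rpow hd0.le hj2.le (by linarith)
                  _ = M ^ (1 - q) * (M ^ k) ^ (1 - q) := by
                      rw [zpow_add_one₀ hM0.ne', mul_comm, Real.mul_rpow hM0.le hMk.le]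
                  _ ≤ 5 * (M ^ k) ^ (1 - q) := by gcongr
            _ = 5 * d ^ q := by
                rw [Real.rpow_sub hd0, Real.rpow_one]
                field_simp
      · calc (M ^ k) ^ q * min (d / M ^ k) D ≤ (M ^ k) ^ q * (d / M ^ k) := by
                gcongr; exact min_le_left _ _
            _ = d * ((M ^ k) ^ (1 - q))⁻¹ := hsub _ hMk
            _ ≤ d * ((d ^ (1 - q))⁻¹ * (1 / 4) ^ (n - 1)) := by
                gcongr
                have e1 : M ^ k = M ^ (j + 1) * M ^ (n - 1) := by
                  rw [← zpow_natCast, ← zpow_add₀ hM0.ne']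
                  congr 1
                  omega
                rw [e1, Real.mul_rpow (by positivity) (by positivity), mul_inv]
                gcongr ?_ * ?_
                · gcongr
                · rw [← Real.rpow_natCast, ← Real.rpow_mul hM0.le, mul_comm, Real.rpow_mul hM0.le,
                    Real.rpow_natCast, one_div, inv_pow]
                  gcongr
                  exact hP.four_le'
            _ = d ^ q * (1 / 4) ^ (n - 1) := by
                rw [Real.rpow_sub hd0, Real.rpow_one]
                field_simp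
            _ ≤ 5 * d ^ q * (1 / 4) ^ n := by
                have e2 : (1 / 4 : ℝ) ^ n = 1 / 4 * (1 / 4) ^ (n - 1) := by
                  rw [← pow_succ']
                  congr 1
                  omega
                rw [e2]
                have : 0 < d ^ q * (1 / 4 : ℝ) ^ (n - 1) := by positivity
                nlinarith
    · obtain ⟨n, hn⟩ := Int.eq_ofNat_of_zero_le (show 0 ≤ j - k - 1 by omega)
      have hgw : gw (k - j) = (1 / 4) ^ n := by
        unfold gw
        rw [if_neg (by omega)]
        congr 1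
        omega
      rw [hgw]
      have hkj : M ^ j = M ^ (k + 1) * M ^ n := by
        rw [← zpow_natCast, ← zpow_add₀ hM0.ne']
        congr 1
        omega
      have h4 : (M ^ (k + 1)) ^ q ≤ d ^ q * (1 / 4) ^ n := by
        have e3 : (M ^ (k + 1)) ^ q * ((M ^ n : ℝ)) ^ q ≤ d ^ q := by
          rw [← Real.mul_rpow (by positivity) (by positivity), ← hkj]
          exact Real.rpow_le_rpow hMj.le hj1 hq.le
        have e4 : (4 : ℝ) ^ n ≤ ((M ^ n : ℝ)) ^ q := by
          rw [← Real.rpow_natCast M, ← Real.rpow_mul hM0.le, mul_comm, Real.rpow_mul hM0.le,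
            Real.rpow_natCast]
          gcongr
          exact hP.four_le
        rw [one_div, inv_pow, ← div_eq_mul_inv, le_div_iff₀ (by positivity)]
        calc (M ^ (k + 1)) ^ q * 4 ^ n ≤ (M ^ (k + 1)) ^ q * ((M ^ n : ℝ)) ^ q := by gcongr
          _ ≤ _ := e3
      rcases hP.D_or with hD | hD
      · calc (M ^ k) ^ q * min (d / M ^ k) D ≤ (M ^ (k + 1)) ^ q * 1 := by
                refine mul_le_mul (Real.rpow_le_rpow hMk.le ?_ hq.le) (hmin1.trans hD) hmin
                  (by positivity)
                exact zpow_le_zpow_right₀ hM1.le (by omega)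
          _ ≤ d ^ q * (1 / 4) ^ n := by linarith
          _ ≤ 5 * d ^ q * (1 / 4) ^ n := by
              have : 0 < d ^ q * (1 / 4 : ℝ) ^ n := by positivity
              nlinarith
      · calc (M ^ k) ^ q * min (d / M ^ k) D ≤ (M ^ k) ^ q * M := by
                gcongr
                exact (min_le_right _ _).trans hP.D_le
          _ = M ^ (1 - q) * (M ^ (k + 1)) ^ q := by
              rw [zpow_add_one₀ hM0.ne', Real.mul_rpow hMk.le hM0.le, Real.rpow_sub hM0,
                Real.rpow_one]
              have : 0 < M ^ q := Real.rpow_pos_of_pos hM0 _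
              field_simp
          _ ≤ 5 * (d ^ q * (1 / 4) ^ n) := by gcongr
          _ = 5 * d ^ q * (1 / 4) ^ n := by ring
  calc ∑ k ∈ S, (M ^ k) ^ q * min (d / M ^ k) D ≤ ∑ k ∈ S, 5 * d ^ q * gw (k - j) :=
        Finset.sum_le_sum fun k _ => key k
    _ = 5 * d ^ q * ∑ k ∈ S, gw (k - j) := by rw [Finset.mul_sum]
    _ ≤ 5 * d ^ q * (8 / 3) := by
        gcongr
        exact sum_gw j S
    _ ≤ 20 * d ^ q := by nlinarith

end Pool.Agent.Helper51_PR
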